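import Mathlib

set_option autoImplicit false
set_option linter.unusedSectionVars false

namespace Pool.Agent.H.MP_ba88e9_an

open Filter Topology Set Classical

variable {K : Type*} [LinearOrder K] [OrderTop K] [WellFoundedLT K] (n : K ↪ ℕ)

def D (t s : K) : Prop := s ≤ t ∧ ∀ u, n u < n t → u < t → u < s

def ch (t c : K) : Prop := D n t c ∧ c ≠ t ∧ ∀ s, D n s c → s = c ∨ D n s t

variable {n}

lemma D.rf (t : K) : D n t t := ⟨le_rfl, fun _ _ h => h⟩

lemma D.idx {t s : K} (h : D n t s) : n t ≤ n s := le_of_not_gt fun k =>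
  (h.2 s k (h.1.lt_of_ne (by rintro rfl; exact k.false))).false

lemma D.tr {t s u : K} (h : D n t s) (k : D n s u) : D n t u := ⟨k.1.trans h.1, fun v a b =>
  k.2 v (a.trans_le h.idx) (h.2 v a b)⟩

lemma D.nest {t s u : K} (h : D n t u) (k : D n s u) (l : s ≤ t) : D n t s :=
  ⟨l, fun v a b => (h.2 v a b).trans_le k.1⟩

lemma D.anti {t s : K} (h : D n t s) (k : D n s t) : s = t := h.1.antisymm k.1

lemma ch.lt {t c : K} (h : ch n t c) : c < t := h.1.1.lt_of_ne h.2.1

lemma ch.uniq {t c d u : K} (h : ch n t c) (k : ch n t d) (a : D n c u) (b : D n d u) : c = d := by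
  wlog l : c ≤ d
  · exact (this k h b a (not_le.1 l).le).symm
  exact ((h.2.2 d (b.nest a l)).resolve_right fun e => k.2.1 (k.1.anti e)).symm

lemma exch {t u : K} (h : D n t u) (k : u ≠ t) : ∃ c, ch n t c ∧ D n c u := by
  obtain ⟨c, ⟨c1, c2, c3⟩, c4⟩ := (wellFounded_lt.onFun (f := n)).has_min
    {s | D n s u ∧ D n t s ∧ s ≠ t} ⟨u, .rf u, h, k⟩
  refine ⟨c, ⟨c2, c3, fun s hs => ?_⟩, c1⟩
  rcases le_or_gt t s with l | l
  · exact .inr ((hs.tr c1).nest h l)
  · exact .inl (n.injective (hs.idx.antisymm (not_lt.1 (c4 s ⟨hs.tr c1, h.nest (hs.tr c1) l.le,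
      l.ne⟩))))

variable (n) in
noncomputable def an (t : K) : K →₀ ℝ := .ofSupportFinite (fun s => if D n s t then 1 else 0)
  (((finite_Iic (n t)).preimage n.injective.injOn).subset fun s hs => by
    by_contra h
    exact hs (if_neg fun k => h k.idx))

lemma an_apply (t s : K) : an n t s = if D n s t then 1 else 0 := rfl

lemma ch.an {t c : K} (h : ch n t c) : an n c = an n t + Finsupp.single c 1 := by
  ext s
  by_cases k : s = c
  · simp [an_apply, k, D.rf, show ¬ D n c t from fun e => h.2.1 (h.1.anti e)]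
  · simp [an_apply, Ne.symm k, show D n s c ↔ D n s t from
      ⟨fun e => (h.2.2 s e).resolve_left k, fun e => e.tr h.1⟩]

variable (n) in
def M : Set (K →₀ ℝ) := {f | (∀ s, 0 ≤ f s) ∧ f ⊤ ≤ 1 ∧
  ∀ t (G : Finset K), (∀ c ∈ G, ch n t c) → ∑ c ∈ G, f c ^ 2 ≤ f t ^ 2}

lemma M.mono {f : K →₀ ℝ} (h : f ∈ M n) {t s : K} (k : D n t s) : f s ≤ f t := by
  induction t using WellFoundedLT.induction with
  | ind t ih =>
    by_cases e : s = t
    · rw [e]
    obtain ⟨c, c1, c2⟩ := exch k e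
    exact (ih c c1.lt c2).trans (abs_le_of_sq_le_sq' (by simpa using h.2.2 t {c} (by simpa)) (h.1 t)).2

lemma one {t u : K} {G : Finset K} (h : ∀ c ∈ G, ch n t c) (w : K → ℝ) :
    (∑ c ∈ G, if D n c u then w c else 0) = 0 ∧ (∀ c ∈ G, ¬ D n c u) ∨
      ∃ c ∈ G, D n c u ∧ (∑ c ∈ G, if D n c u then w c else 0) = w c := by
  by_cases k : ∃ c ∈ G, D n c u
  · obtain ⟨c, c1, c2⟩ := k
    exact .inr ⟨c, c1, c2, by
      rw [Finset.sum_eq_single_of_mem c c1 fun d d1 d2 => if_neg fun e =>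
        d2 ((h d d1).uniq (h c c1) e c2), if_pos c2]⟩
  · push Not at k
    exact .inl ⟨Finset.sum_eq_zero fun c hc => if_neg (k c hc), k⟩

lemma glue {t : K} {G : Finset K} (h : ∀ c ∈ G, ch n t c) {w : K → ℝ} (hw : ∀ c ∈ G, 0 ≤ w c)
    {g : K → K →₀ ℝ} (hg : ∀ c ∈ G, g c ∈ M n) (k : ∑ c ∈ G, (w c * g c c) ^ 2 ≤ 1) :
    an n t + ∑ c ∈ G, w c • (g c).filter (D n c) ∈ M n := by
  set f := an n t + ∑ c ∈ G, w c • (g c).filter (D n c)
  have e : ∀ s, f s = (if D n s t then 1 else 0) + ∑ c ∈ G, if D n c s then w c * g c s else 0 :=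
    fun s => by simp [f, an_apply, Finsupp.filter_apply]
  have e0 : ∀ s, 0 ≤ f s := fun s => by
    rw [e]
    exact add_nonneg (by positivity) (Finset.sum_nonneg fun c hc => by
      have := hw c hc
      have := (hg c hc).1 s
      positivity)
  have e1 : ∀ s, D n s t → f s = 1 := fun s a => by
    rw [e, if_pos a, Finset.sum_eq_zero fun c hc => if_neg fun b =>
      (h c hc).2.1 ((h c hc).1.anti (b.tr a)), add_zero]
  have e2 : ∀ s, ∀ c ∈ G, D n c s → f s = w c * g c s := fun s c hc a => by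
    rw [e, if_neg fun b => (h c hc).2.1 ((h c hc).1.anti (a.tr b)), zero_add]
    rcases one (u := s) h (fun c => w c * g c s) with b | ⟨d, d1, d2, b⟩
    · exact (b.2 c hc a).elim
    · rw [b, (h d d1).uniq (h c hc) d2 a]
  have e3 : ∀ s, ¬ D n s t → (∀ c ∈ G, ¬ D n c s) → f s = 0 := fun s a b => by
    rw [e, if_neg a, Finset.sum_eq_zero fun c hc => if_neg (b c hc), add_zero]
  refine ⟨e0, ?_, fun s H hH => ?_⟩
  · by_cases a : D n ⊤ t
    · rw [e1 _ a]
    · rw [e3 _ a fun c hc b => (h c hc).lt.not_ge (le_top.trans b.1)]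
      exact zero_le_one
  by_cases a : s = t
  · subst a
    rw [e1 _ (.rf _), one_pow, ← Finset.sum_filter_of_ne (p := (· ∈ G)) fun d hd b => by
      by_contra b'
      refine b (by
        rw [e3 d (fun e => (hH d hd).2.1 ((hH d hd).1.anti e)) fun c hc e =>
          b' ((h c hc).uniq (hH d hd) e (.rf _) ▸ hc)]
        simp)]
    refine le_trans ?_ k
    rw [Finset.sum_congr rfl fun d hd => by rw [e2 d d (Finset.mem_filter.1 hd).2 (.rf _)]]
    exact Finset.sum_le_sum_of_subset_of_nonneg (fun d hd => (Finset.mem_filter.1 hd).2)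
      fun _ _ _ => sq_nonneg _
  by_cases b : ∃ c ∈ G, D n c s
  · obtain ⟨c, c1, c2⟩ := b
    rw [e2 s c c1 c2, Finset.sum_congr rfl fun d hd => by rw [e2 d c c1 (c2.tr (hH d hd).1), mul_pow],
      ← Finset.mul_sum, mul_pow]
    exact mul_le_mul_of_nonneg_left ((hg c c1).2.2 s H hH) (sq_nonneg _)
  have z : ∀ d ∈ H, f d ^ 2 = if D n d t then 1 else 0 := fun d hd => by
    split_ifs with l
    · rw [e1 d l, one_pow]
    rw [e3 d l fun c hc e => ?_]
    · simp
    rcases (hH d hd).2.2 c e with r | r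
    · rcases (hH d hd).2.2 t (r ▸ (h c hc).1) with q | q
      · exact l (q ▸ .rf _)
      · exact a (q.anti (((h c hc).2.2 s (r ▸ (hH d hd).1)).resolve_left
          fun p => (hH d hd).2.1 (r.symm.trans p.symm)))
    · exact b ⟨c, hc, r⟩
  rw [Finset.sum_congr rfl z]
  rcases one (u := t) hH (fun _ => 1) with q | ⟨d, d1, d2, q⟩
  · rw [q.1]
    exact sq_nonneg _
  · rw [q, e1 s ((hH d d1).1.tr d2), one_pow]

lemma anM (t : K) : an n t ∈ M n := by simpa using glue (n := n) (t := t) (G := ∅) (w := 0) (g := 0)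

lemma split (f : K →₀ ℝ) (t : K) : ∃ G : Finset K, (∀ c ∈ G, ch n t c) ∧
    f.filter (D n t) = f t • Finsupp.single t 1 + ∑ c ∈ G, f.filter (D n c) := by
  choose! p p1 p2 using fun u => exch (n := n) (t := t) (u := u)
  have h : ∀ c ∈ (f.support.filter fun u => D n t u ∧ u ≠ t).image p, ch n t c :=
    Finset.forall_mem_image.2 fun u k => p1 u (Finset.mem_filter.1 k).2.1 (Finset.mem_filter.1 k).2.2
  refine ⟨_, h, Finsupp.ext fun s => ?_⟩
  simp only [Finsupp.add_apply, Finsupp.finsetSum_apply, Finsupp.filter_apply, Finsupp.smul_apply]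
  rcases one (u := s) h (fun _ => f s) with q | ⟨d, d1, d2, q⟩
  · rw [q.1]
    by_cases a : s = t
    · simp [a, D.rf]
    by_cases b : f s = 0
    · simp [Ne.symm a, b]
    rw [if_neg fun e => q.2 (p s) (Finset.mem_image_of_mem _ (by simp [a, b, e])) (p2 s e a)]
    simp [Ne.symm a]
  · rw [q, if_pos ((h d d1).1.tr d2)]
    simp [show t ≠ s by rintro rfl; exact (h d d1).2.1 ((h d d1).1.anti d2)]

lemma key {f g : K →₀ ℝ} (hf : f ∈ M n) (hg : g ∈ M n) (a : K →₀ ℝ) (t : K) (r : ℝ)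
    (h : ∀ u, D n t u → Finsupp.linearCombination ℝ (an n u) (a.filter (D n t)) ≤ r) :
    Finsupp.linearCombination ℝ (fun s => f s * g s) (a.filter (D n t)) ≤ r * (f t * g t) := by
  induction t using WellFoundedLT.induction generalizing r with
  | ind t ih =>
    obtain ⟨G, g1, g2⟩ := split (n := n) a t
    have z : ∀ u, ∀ c, ¬ D n c u → Finsupp.linearCombination ℝ (an n u) (a.filter (D n c)) = 0 :=
      fun u c k => by
      rw [Finsupp.linearCombination_apply]
      exact Finset.sum_eq_zero fun s hs => by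
        beta_reduce
        rw [an_apply, if_neg fun e => k ((Finset.mem_filter.1 hs).2.tr e), smul_zero]
    simp only [g2, map_add, map_sum, map_smul, Finsupp.linearCombination_single, one_mul,
      smul_eq_mul] at h ⊢
    have h0 := h t (.rf t)
    rw [Finset.sum_eq_zero fun c hc => z t c fun e => (g1 c hc).2.1 ((g1 c hc).1.anti e),
      an_apply, if_pos (.rf t)] at h0
    have : ∑ c ∈ G, f c * g c ≤ f t * g t := abs_le_of_sq_le_sq' ((Finset.sum_mul_sq_le_sq_mul_sq _ _ _).trans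
      ((mul_le_mul (hf.2.2 t G g1) (hg.2.2 t G g1) (by positivity) (by positivity)).trans
        (mul_pow _ _ _).ge)) (mul_nonneg (hf.1 t) (hg.1 t)) |>.2
    have := mul_le_mul_of_nonneg_left this (show 0 ≤ r - a t by linarith)
    rw [Finset.mul_sum] at this
    linarith [Finset.sum_le_sum fun c hc => ih c (g1 c hc).lt (r - a t) fun u hu => by
      have := h u ((g1 c hc).1.tr hu)
      rw [Finset.sum_eq_single_of_mem c hc fun d d1 d2 => z u d fun e =>
        d2 ((g1 d d1).uniq (g1 c hc) e hu), an_apply, if_pos ((g1 c hc).1.tr hu)] at this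
      linarith]

end Pool.Agent.H.MP_ba88e9_an
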