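import Pool.Agent.H.MP_ba88e9_an.A

set_option autoImplicit false
set_option linter.unusedSectionVars false

namespace Pool.Agent.H.MP_ba88e9_an

open Filter Topology Set Classical

variable {K : Type*} [LinearOrder K] [OrderTop K] [WellFoundedLT K] {n : K ↪ ℕ}

lemma pos {G : Finset K} {z : K → ℝ} {B : ℝ}
    (h : ∀ w : K → ℝ, (∀ c, 0 ≤ w c) → ∑ c ∈ G, w c ^ 2 ≤ 1 → ∑ c ∈ G, w c * z c ≤ B) :
    ∑ c ∈ G, max (z c) 0 ^ 2 ≤ B ^ 2 := by
  set S := ∑ c ∈ G, max (z c) 0 ^ 2 with hS
  rcases (show 0 ≤ S by positivity).eq_or_lt with k | k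
  · rw [← k]
    positivity
  have := h (fun c => max (z c) 0 / √S) (fun c => by positivity) (by
    simp only [div_pow, ← Finset.sum_div, Real.sq_sqrt k.le]
    exact (div_self k.ne').le)
  rw [Finset.sum_congr rfl (g := fun c => max (z c) 0 ^ 2 / √S) fun c _ => by
    rcases le_total (z c) 0 with e | e <;> simp [e, sq, mul_div_right_comm], ← Finset.sum_div,
    ← hS, Real.div_sqrt] at this
  exact (Real.sqrt_le_iff.1 this).2

lemma bd {L : (K →₀ ℝ) →ₗ[ℝ] ℝ} {C : ℝ} (h : ∀ f ∈ M n, |L f| ≤ C) {t : K} {G : Finset K}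
    {g : K → K →₀ ℝ} (k : ∀ c ∈ G, ch n t c ∧ g c ∈ M n) :
    ∑ c ∈ G, (L ((g c).filter (D n c)) / g c c) ^ 2 ≤ 8 * C ^ 2 := by
  have a : ∀ w : K → ℝ, (∀ c, 0 ≤ w c) → ∑ c ∈ G, w c ^ 2 ≤ 1 →
      |∑ c ∈ G, w c * (L ((g c).filter (D n c)) / g c c)| ≤ 2 * C := fun w h1 h2 => by
    have := abs_le.1 (h _ (glue (fun c hc => (k c hc).1) (w := fun c => w c / g c c)
      (fun c hc => div_nonneg (h1 c) ((k c hc).2.1 c)) (fun c hc => (k c hc).2)
      ((Finset.sum_le_sum fun c _ => by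
        by_cases e : g c c = 0
        · simp [e, sq_nonneg]
        · simp [e]).trans h2)))
    simp only [map_add, map_sum, map_smul, smul_eq_mul, div_mul_eq_mul_div, mul_div_assoc] at this
    have := abs_le.1 (h _ (anM t))
    exact abs_le.2 ⟨by linarith, by linarith⟩
  have b := pos fun w h1 h2 => (abs_le.1 (a w h1 h2)).2
  have c := pos (z := fun c => -(L ((g c).filter (D n c)) / g c c)) fun w h1 h2 => by
    simpa using neg_le.1 (abs_le.1 (a w h1 h2)).1
  rw [Finset.sum_congr rfl (g := fun c => max (L ((g c).filter (D n c)) / g c c) 0 ^ 2 +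
    max (-(L ((g c).filter (D n c)) / g c c)) 0 ^ 2) fun c _ => by
      rcases le_total (L ((g c).filter (D n c)) / g c c) 0 with e | e <;> simp [e],
    Finset.sum_add_distrib]
  linarith

lemma sgn (G : Finset K) (y : ℕ → K → ℝ) (F : Finset ℕ) : ∃ ε : ℕ → ℝ, (∀ i, |ε i| ≤ 1) ∧
    ∑ c ∈ G, ∑ i ∈ F, y i c ^ 2 ≤ ∑ c ∈ G, (∑ i ∈ F, ε i * y i c) ^ 2 := by
  induction F using Finset.induction_on with
  | empty => exact ⟨0, by simp, by simp⟩
  | insert i F hi ih =>
    obtain ⟨ε, h1, h2⟩ := ih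
    obtain ⟨e, e1, e2⟩ : ∃ e : ℝ, e ^ 2 = 1 ∧ 0 ≤ e * ∑ c ∈ G, y i c * ∑ j ∈ F, ε j * y j c := by
      rcases le_total 0 (∑ c ∈ G, y i c * ∑ j ∈ F, ε j * y j c) with k | k
      exacts [⟨1, by simp, by simpa⟩, ⟨-1, by simp, by simpa⟩]
    refine ⟨Function.update ε i e, fun j => ?_, ?_⟩
    · by_cases k : j = i
      · simpa [k] using (sq_le_one_iff_abs_le_one e).1 e1.le
      · simpa [k] using h1 j
    have : ∀ c, (∑ j ∈ insert i F, Function.update ε i e j * y j c) ^ 2 = y i c ^ 2 +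
        (∑ j ∈ F, ε j * y j c) ^ 2 + 2 * (e * (y i c * ∑ j ∈ F, ε j * y j c)) := fun c => by
      rw [Finset.sum_insert hi, Function.update_self, Finset.sum_congr rfl fun j hj => by
        rw [Function.update_of_ne (by rintro rfl; exact hi hj)]]
      linear_combination y i c ^ 2 * e1
    simp only [this]
    simp only [Finset.sum_insert hi, Finset.sum_add_distrib, ← Finset.mul_sum]
    linarith

lemma nc (h0 : ∀ s, D n ⊤ s) (L : ℕ → (K →₀ ℝ) →ₗ[ℝ] ℝ) (C : ℝ) (h : ∀ (F : Finset ℕ) (ε : ℕ → ℝ),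
    (∀ i, |ε i| ≤ 1) → ∀ f ∈ M n, |∑ i ∈ F, ε i * L i f| ≤ C) (δ : ℝ) (hδ : 0 < δ) :
    ∀ᶠ i in atTop, ∀ f ∈ M n, |L i f| ≤ δ := by
  have a : ∀ t δ, 0 < δ → ∀ᶠ i in atTop, |L i (an n t)| < δ := fun t δ hδ =>
    (summable_of_sum_le (c := C) (fun _ => abs_nonneg _) fun F => by
      simpa [sign_mul_self] using le_of_abs_le (h F (fun i => SignType.sign (L i (an n t)))
        (fun i => by cases SignType.sign (L i (an n t)) <;> simp) _
          (anM t))).tendsto_atTop_zero.eventually_lt_const hδ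
  have b : ∀ t δ, 0 < δ → ∀ᶠ i in atTop, ∀ f ∈ M n,
      |L i (f.filter (D n t) - f t • Finsupp.single t 1)| ≤ δ * f t := fun t => by
    induction t using WellFoundedLT.induction with
    | ind t ih =>
    intro δ hδ
    by_contra hc
    have r : ∀ c, ch n t c → ∀ η, 0 < η → ∀ᶠ i in atTop, ∀ f ∈ M n,
        (L i (f.filter (D n c)) / f c) ^ 2 ≤ η := fun c k η hη => by
      have e : 0 < √η / 3 := by positivity
      filter_upwards [ih c k.lt _ e, a c _ e, a t _ e] with i i1 i2 i3 f hf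
      rcases (hf.1 c).eq_or_lt with z | z
      · simp [← z, hη.le]
      rw [← sq_abs, ← Real.le_sqrt (abs_nonneg _) hη.le, abs_div, abs_of_pos z, div_le_iff₀ z]
      have := abs_le.1 (i1 f hf)
      rw [k.an, map_add] at i2
      simp only [map_sub, map_smul, smul_eq_mul] at this
      have i2 := abs_lt.1 i2
      have i3 := abs_lt.1 i3
      exact abs_le.2 ⟨by nlinarith, by nlinarith⟩
    have g : ∀ N : ℕ, ∃ (G : Finset K) (i : K → ℕ) (g : K → K →₀ ℝ), (∀ c ∈ G, ch n t c ∧ g c ∈ M n) ∧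
        N * (δ ^ 2 / 2) ≤ ∑ c ∈ G, (L (i c) ((g c).filter (D n c)) / g c c) ^ 2 := fun N => by
      induction N with
      | zero => exact ⟨∅, 0, 0, by simp, by simp⟩
      | succ N ih =>
      obtain ⟨G, i, g, g1, g2⟩ := ih
      obtain ⟨j, j1, j2⟩ := ((not_eventually.1 hc).and_eventually (G.eventually_all.2 fun c k =>
        r c (g1 c k).1 (δ ^ 2 / 2 / (G.card + 1)) (by positivity))).exists
      push Not at j1
      obtain ⟨f, f1, f2⟩ := j1
      obtain ⟨H, k1, k2⟩ := split (n := n) f t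
      rw [k2, add_sub_cancel_left, map_sum, Finset.sum_congr rfl
        (g := fun c => f c * (L j (f.filter (D n c)) / f c)) fun c _ => by
          by_cases z : f c = 0
          · rw [z, zero_mul, (Finsupp.filter_eq_zero_iff _ _).2 fun s hs =>
              (z ▸ M.mono f1 hs).antisymm (f1.1 s), map_zero]
          · rw [mul_div_cancel₀ _ z]] at f2
      have p := (pow_lt_pow_left₀ f2 (mul_nonneg hδ.le (f1.1 t)) two_ne_zero).trans_le ((sq_abs _).le.trans
          ((Finset.sum_mul_sq_le_sq_mul_sq _ _ _).trans (mul_le_mul_of_nonneg_right (f1.2.2 t H k1)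
            (by positivity))))
      rw [mul_pow, mul_comm] at p
      have p := lt_of_mul_lt_mul_left p (sq_nonneg _)
      refine ⟨G ∪ H, fun c => if c ∈ G then i c else j, fun c => if c ∈ G then g c else f,
        fun c hc => ?_, ?_⟩
      · by_cases z : c ∈ G
        · simpa [z] using g1 c z
        · simpa [z] using ⟨k1 c ((Finset.mem_union.1 hc).resolve_left z), f1⟩
      beta_reduce
      rw [← Finset.union_sdiff_self_eq_union, Finset.sum_union Finset.disjoint_sdiff,
        Finset.sum_congr rfl fun c hc => by rw [if_pos hc, if_pos hc],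
        Finset.sum_congr (s₁ := H \ G) rfl fun c hc => by
          rw [if_neg (Finset.mem_sdiff.1 hc).2, if_neg (Finset.mem_sdiff.1 hc).2]]
      rw [← Finset.sum_inter_add_sum_sdiff H G] at p
      have q := (Finset.sum_le_card_nsmul (H ∩ G) _ _ fun c hc =>
        j2 c (Finset.mem_inter.1 hc).2 f f1).trans (nsmul_le_nsmul_left (by positivity)
          ((Finset.card_le_card Finset.inter_subset_right).trans G.card.le_succ))
      rw [nsmul_eq_mul, Nat.cast_succ, mul_div_cancel₀ _ (by positivity)] at q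
      push_cast
      linarith
    obtain ⟨N, hN⟩ := exists_nat_gt (8 * C ^ 2 / (δ ^ 2 / 2))
    obtain ⟨G, i, g, g1, g2⟩ := g N
    obtain ⟨ε, e1, e2⟩ := sgn G (fun j c => L j ((g c).filter (D n c)) / g c c) (G.image i)
    have := bd (L := ∑ j ∈ G.image i, ε j • L j) (C := C) (by simpa using h _ ε e1) g1
    simp only [LinearMap.sum_apply, LinearMap.smul_apply, smul_eq_mul, Finset.sum_div,
      mul_div_assoc] at this
    rw [div_lt_iff₀ (by positivity)] at hN
    linarith [Finset.sum_le_sum (s := G) fun c hc => Finset.single_le_sum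
      (f := fun j => (L j ((g c).filter (D n c)) / g c c) ^ 2) (fun _ _ => sq_nonneg _)
      (Finset.mem_image_of_mem i hc)]
  filter_upwards [a ⊤ _ (half_pos hδ), b ⊤ _ (half_pos hδ)] with i i1 i2 f hf
  have := abs_le.1 (i2 f hf)
  rw [(Finsupp.filter_eq_self_iff _ _).2 fun s _ => h0 s, show Finsupp.single ⊤ 1 = an n ⊤ from
    Finsupp.ext fun s => by
      by_cases e : s = ⊤
      · simp [e, an_apply, D.rf]
      · simp [Ne.symm e, an_apply, show ¬ D n s ⊤ from fun k => e (top_le_iff.1 k.1)]] at this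
  simp only [map_sub, map_smul, smul_eq_mul] at this
  have i1 := abs_lt.1 i1
  have := hf.1 ⊤
  have := hf.2.1
  exact abs_le.2 ⟨by nlinarith, by nlinarith⟩

end Pool.Agent.H.MP_ba88e9_an
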