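import Pool.Agent.H.MP_ba88e9_an.B

set_option autoImplicit false
set_option linter.unusedSectionVars false

namespace Pool.Agent.H.MP_ba88e9_an

open Filter Topology Set Classical

noncomputable def cl {W : Type*} [NormedAddCommGroup W] [NormedSpace ℝ W] (S : Set W) :
    Submodule ℝ W := (Submodule.span ℝ S).topologicalClosure

noncomputable def inj (X Y : Type*) [NormedAddCommGroup X] [NormedSpace ℝ X] [NormedAddCommGroup Y]
    [NormedSpace ℝ Y] :=
  cl {B : StrongDual ℝ X →L[ℝ] Y | ∃ (x : X) (y : Y), ∀ φ, B φ = φ x • y}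

lemma mcl {W : Type*} [NormedAddCommGroup W] [NormedSpace ℝ W] {S : Set W} {w : W} (h : w ∈ S) :
    w ∈ cl S := Submodule.le_topologicalClosure _ (Submodule.subset_span h)

instance {W : Type*} [NormedAddCommGroup W] [NormedSpace ℝ W] [CompleteSpace W] (S : Set W) :
    CompleteSpace (cl S) := (Submodule.isClosed_topologicalClosure _).completeSpace_coe

lemma cont {K W : Type*} [TopologicalSpace K] [NormedAddCommGroup W] [NormedSpace ℝ W]
    (Λ : K → W →L[ℝ] ℝ) (h : ∀ s w, |Λ s w| ≤ ‖w‖) {S : Set W} (hS : ∀ w ∈ S, Continuous (Λ · w))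
    {w : W} (hw : w ∈ cl S) : Continuous (Λ · w) := by
  refine continuous_of_uniform_approx_of_continuous fun u hu => ?_
  obtain ⟨ε, e0, he⟩ := Metric.mem_uniformity_dist.1 hu
  obtain ⟨g, g1, g2⟩ := Metric.mem_closure_iff.1 hw ε e0
  refine ⟨(Λ · g), ?_, fun x => he ?_⟩
  · clear g2
    induction g1 using Submodule.span_induction with
    | mem x hx => exact hS x hx
    | zero => simpa using continuous_const
    | add x y _ _ a b =>
      simp only [map_add]
      exact a.add b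
    | smul c x _ a =>
      simp only [map_smul]
      exact a.const_smul c
  · rw [Real.dist_eq, ← map_sub]
    exact (h x _).trans_lt (by rwa [← dist_eq_norm])

variable {K : Type*} [LinearOrder K] [OrderTop K] [WellFoundedLT K] {n : K ↪ ℕ}
  (h0 : ∀ s, D n ⊤ s)

def e (s : K) : lp (fun _ : M n => ℝ) ⊤ := ⟨fun f => f.1 s, memℓp_infty ⟨1, by
  rintro _ ⟨f, rfl⟩
  exact (abs_of_nonneg (f.2.1 s)).trans_le ((M.mono f.2 (h0 s)).trans f.2.2.1)⟩⟩

noncomputable def Xs := (Submodule.span ℝ (range (e h0))).topologicalClosure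

def X := ↥(Xs h0)

noncomputable instance : NormedAddCommGroup (X h0) := inferInstanceAs (NormedAddCommGroup (Xs h0))
noncomputable instance : NormedSpace ℝ (X h0) := inferInstanceAs (NormedSpace ℝ (Xs h0))
instance : CompleteSpace (X h0) := (Submodule.isClosed_topologicalClosure _).completeSpace_coe

noncomputable def ev (f : M n) : StrongDual ℝ (X h0) :=
  lp.evalCLM ℝ (fun _ : M n => ℝ) ⊤ f ∘L (Xs h0).subtypeL

lemma ev1 (f : M n) (x : X h0) : |ev h0 f x| ≤ ‖x‖ := lp.norm_apply_le_norm (by simp) x.1 f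

lemma ev2 {x : X h0} {r : ℝ} (h : ∀ f, |ev h0 f x| ≤ r) : ‖x‖ ≤ r :=
  lp.norm_le_of_forall_le (f := x.1) ((abs_nonneg _).trans (h ⟨_, anM ⊤⟩)) h

def ex (s : K) : X h0 := ⟨e h0 s, Submodule.le_topologicalClosure _ (Submodule.subset_span ⟨s, rfl⟩)⟩

lemma ev3 (f : M n) (s : K) : ev h0 f (ex h0 s) = f.1 s := rfl

lemma lin (x : X h0) : ∃ L : (K →₀ ℝ) →ₗ[ℝ] ℝ, ∀ f : M n, L f = ev h0 f x := by
  have : Finsupp.linearCombination ℝ (fun f => ev h0 f x) ∈ (LinearMap.ker
      (Finsupp.linearCombination ℝ (Subtype.val : M n → K →₀ ℝ))).dualAnnihilator := by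
    refine (Submodule.mem_dualAnnihilator _).2 fun a ha => ?_
    set T := a.sum fun f r => r • lp.evalCLM ℝ (fun _ : M n => ℝ) ⊤ f
    have : x.1 ∈ T.ker := Submodule.topologicalClosure_minimal _ (Submodule.span_le.2 (by
      rintro _ ⟨s, rfl⟩
      have := DFunLike.congr_fun (LinearMap.mem_ker.1 ha) s
      simp only [Finsupp.linearCombination_apply, Finsupp.sum, Finsupp.finsetSum_apply] at this
      exact (by simp [T, Finsupp.sum]; rfl : T (e h0 s) = _).trans this)) T.isClosed_ker x.2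
    exact (by simp [T, Finsupp.sum, Finsupp.linearCombination_apply]; rfl : _ = T x.1).trans this
  rw [← LinearMap.range_dualMap_eq_dualAnnihilator_ker] at this
  obtain ⟨L, hL⟩ := this
  exact ⟨L, fun f => by simpa using DFunLike.congr_fun hL (Finsupp.single f 1)⟩

lemma noemb {E : Type*} [NormedAddCommGroup E] [NormedSpace ℝ E] (u : ℕ → E) (h1 : ∀ i, 1 ≤ ‖u i‖)
    (h2 : ∀ (F : Finset ℕ) (ε : ℕ → ℝ), (∀ i, |ε i| ≤ 1) → ‖∑ i ∈ F, ε i • u i‖ ≤ 1) :
    ¬ ∃ (T : E →L[ℝ] X h0) (c : ℝ), 0 < c ∧ ∀ x, c * ‖x‖ ≤ ‖T x‖ := by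
  rintro ⟨T, c, c0, hc⟩
  choose L hL using fun i => lin h0 (T (u i))
  obtain ⟨i, hi⟩ := (nc h0 L ‖T‖ (fun F ε h f hf => by
    have := (ev1 h0 ⟨f, hf⟩ _).trans ((T.le_opNorm _).trans (mul_le_of_le_one_right (norm_nonneg _)
      (h2 F ε h)))
    simpa [← hL] using this) _ (half_pos c0)).exists
  have := ev2 h0 fun f => hL i f ▸ hi f f.2
  nlinarith [hc (u i), h1 i]

variable [TopologicalSpace K] [CompactSpace K] (hc : ∀ t, IsClopen {s | D n t s})

noncomputable def ind (t : K) : C(K, ℝ) := ⟨fun s => an n s t,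
  (hc t).continuous_indicator (f := fun _ => (1 : ℝ)) continuous_const⟩

include h0 in
lemma dense (V : Submodule ℝ C(K, ℝ)) (hV : IsClosed (V : Set C(K, ℝ))) (h : ∀ s, ind hc s ∈ V)
    (f : C(K, ℝ)) : f ∈ V := by
  set A := Algebra.adjoin ℝ (range (ind hc))
  have := ContinuousMap.continuousMap_mem_subalgebra_closure_of_separatesPoints A (fun x y hxy => by
    wlog l : x < y
    · obtain ⟨g, g1, g2⟩ := this h0 hc V hV h f y x hxy.symm (lt_of_le_of_ne (not_lt.1 l) hxy.symm)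
      exact ⟨g, g1, g2.symm⟩
    refine ⟨_, ⟨ind hc x, Algebra.subset_adjoin ⟨_, rfl⟩, rfl⟩, ?_⟩
    simp [ind, an_apply, D.rf, show ¬ D n x y from fun k => l.not_ge k.1]) f
  refine closure_minimal (fun g (hg : g ∈ A.toSubmodule) => ?_) hV this
  rw [Algebra.adjoin_eq_span] at hg
  refine Submodule.span_le.2 (fun g hg => ?_) hg
  have m : ∀ s t, s ≤ t → ind hc s * ind hc t = 0 ∨ ∃ s', ind hc s' = ind hc s * ind hc t :=
    fun s t l => by
    by_cases k : D n t s
    · refine .inr ⟨s, ContinuousMap.ext fun u => ?_⟩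
      by_cases a : D n s u
      · simp [ind, an_apply, a, k.tr a]
      · simp [ind, an_apply, a]
    · exact .inl (ContinuousMap.ext fun u => by
        simpa [ind, an_apply] using fun a b => k (a.nest b l))
  have : g = 0 ∨ ∃ s, ind hc s = g := by
    induction hg using Submonoid.closure_induction with
    | mem x hx => exact .inr hx
    | one => exact .inr ⟨⊤, ContinuousMap.ext fun s => by simp [ind, an_apply, h0]⟩
    | mul x y _ _ a b =>
      rcases a with rfl | ⟨s, rfl⟩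
      · simp
      rcases b with rfl | ⟨t, rfl⟩
      · simp
      rcases le_total s t with l | l
      exacts [m s t l, mul_comm (ind hc t) _ ▸ m t s l]
  rcases this with rfl | ⟨s, rfl⟩
  exacts [V.zero_mem, h s]

lemma rinv {ι W F : Type*} [NormedAddCommGroup W] [NormedSpace ℝ W] [CompleteSpace W]
    [NormedAddCommGroup F] [NormedSpace ℝ F] [CompleteSpace F] (P : W →L[ℝ] F) (z : ι → W)
    (h : ∀ c : ι →₀ ℝ, ‖c.sum fun i a => a • z i‖ ≤ ‖P (c.sum fun i a => a • z i)‖)
    (d : ∀ V : Submodule ℝ F, IsClosed (V : Set F) → (∀ s, P (z s) ∈ V) → ∀ f, f ∈ V) :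
    ∃ J : F →L[ℝ] W, ∀ f, P (J f) = f := by
  set Z := cl (range z)
  have iso : ∀ B ∈ Z, ‖B‖ ≤ ‖P B‖ := fun B hB => by
    refine closure_minimal (s := (Submodule.span ℝ (range z) : Set W)) (t := {B | ‖B‖ ≤ ‖P B‖})
      (fun B hB => ?_) (isClosed_le (by fun_prop) (by fun_prop)) hB
    obtain ⟨c, rfl⟩ := Finsupp.mem_span_range_iff_exists_finsupp.1 hB
    exact h c
  have an := (P ∘L Z.subtypeL).antilipschitz_of_bound (K := 1) fun B => by simpa using iso B.1 B.2
  let Q := ContinuousLinearEquiv.ofBijective (P ∘L Z.subtypeL) (LinearMap.ker_eq_bot.2 an.injective)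
    (eq_top_iff.2 fun f _ => d (P ∘L Z.subtypeL).range (an.isClosed_range (P ∘L Z.subtypeL).uniformContinuous)
      (fun s => ⟨⟨z s, mcl ⟨s, rfl⟩⟩, rfl⟩) f)
  exact ⟨Z.subtypeL ∘L Q.symm, Q.apply_symm_apply⟩

include h0 hc in
lemma main' {X : Type*} [NormedAddCommGroup X] [NormedSpace ℝ X] [CompleteSpace X]
    (ev : M n → StrongDual ℝ X) (ex : K → X) (ev1 : ∀ f x, |ev f x| ≤ ‖x‖)
    (ev2 : ∀ {x r}, (∀ f, |ev f x| ≤ r) → ‖x‖ ≤ r) (ev3 : ∀ f s, ev f (ex s) = f.1 s)
    (a2 : ∀ x, Continuous fun s => ev ⟨_, anM s⟩ x) :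
    ∃ (J : C(K, ℝ) →L[ℝ] inj X X) (P : inj X X →L[ℝ] C(K, ℝ)), ∀ f, P (J f) = f := by
  set a : K → StrongDual ℝ X := fun s => ev ⟨_, anM s⟩
  have a1 : ∀ s, ‖a s‖ ≤ 1 := fun s => ContinuousLinearMap.opNorm_le_bound _ zero_le_one fun x => by
    simpa using ev1 _ x
  have a3 : ∀ s (B : StrongDual ℝ X →L[ℝ] X), |a s (B (a s))| ≤ ‖B‖ :=
    fun s B => (ev1 _ _).trans ((B.le_opNorm _).trans
      (mul_le_of_le_one_right (norm_nonneg _) (a1 s)))
  have a4 : ∀ B : inj X X, Continuous fun s => a s (B.1 (a s)) := fun B => by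
    have := cont (fun s => a s ∘L ContinuousLinearMap.apply ℝ X (a s)) a3 (by
      rintro B ⟨x, y, h⟩
      simp only [ContinuousLinearMap.comp_apply, ContinuousLinearMap.apply_apply, h, map_smul]
      exact (a2 x).mul (a2 y)) B.2
    exact this
  let P : inj X X →L[ℝ] C(K, ℝ) := LinearMap.mkContinuous
    { toFun := fun B => ⟨_, a4 B⟩
      map_add' := fun _ _ => ContinuousMap.ext fun s => map_add (a s) _ _
      map_smul' := fun _ _ => ContinuousMap.ext fun s => map_smul (a s) _ _ } 1 fun B => by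
      rw [one_mul]
      exact (ContinuousMap.norm_le _ (norm_nonneg _)).2 fun s => a3 s B
  let z : K → inj X X := fun s => ⟨(ContinuousLinearMap.apply ℝ ℝ (ex s)).smulRight
    (ex s), mcl ⟨ex s, ex s, fun _ => rfl⟩⟩
  have z1 : ∀ s, P (z s) = ind hc s := fun s => ContinuousMap.ext fun u => by
    change a u (a u (ex s) • ex s) = an n u s
    simp only [map_smul, a, ev3, an_apply]
    split_ifs <;> simp
  have : CompleteSpace (inj X X) := inferInstanceAs (CompleteSpace (cl _))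
  obtain ⟨J, hJ⟩ := rinv P z (fun c => by
    have k : ∀ (c : K →₀ ℝ) (f g : M n), ∑ s ∈ c.support, c s * (f.1 s * g.1 s) ≤
        ‖P (c.sum fun i a => a • z i)‖ := fun c f g => by
      have := key f.2 g.2 c ⊤ ‖P (c.sum fun i a => a • z i)‖ fun u _ => by
        rw [(Finsupp.filter_eq_self_iff _ _).2 fun s _ => h0 s]
        refine le_trans (le_of_eq ?_) ((le_abs_self _).trans
          ((P (c.sum fun i a => a • z i)).norm_coe_le_norm u))
        simp [Finsupp.sum, z1, Finsupp.linearCombination_apply, ind]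
      rw [(Finsupp.filter_eq_self_iff _ _).2 fun s _ => h0 s] at this
      exact this.trans (mul_le_of_le_one_right (norm_nonneg _) (mul_le_one₀ f.2.2.1 (g.2.1 _) g.2.2.1))
    change ‖(c.sum fun i a => a • z i).1‖ ≤ _
    refine ContinuousLinearMap.opNorm_le_bound _ (norm_nonneg _) fun ψ => ev2 fun f => ?_
    have : ev f ((c.sum fun i a => a • z i).1 ψ) = ψ (∑ s ∈ c.support, (c s * f.1 s) • ex s) := by
      simp [Finsupp.sum, z, ev3, mul_assoc, mul_comm (ψ _)]
    rw [this, mul_comm]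
    refine (ψ.le_opNorm _).trans (mul_le_mul_of_nonneg_left (ev2 fun g => ?_) (norm_nonneg _))
    have k2 := k (-c) f g
    rw [← Finsupp.linearCombination_apply, map_neg, map_neg, norm_neg, Finsupp.support_neg] at k2
    simp only [Finsupp.neg_apply, neg_mul, Finset.sum_neg_distrib] at k2
    simp only [map_sum, map_smul, ev3, smul_eq_mul, mul_assoc]
    exact abs_le.2 ⟨neg_le.1 k2, k c f g⟩)
    fun V h1 h2 => dense h0 hc V h1 (by simpa only [z1] using h2)
  exact ⟨J, P, hJ⟩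

include hc in
lemma main : ∃ (J : C(K, ℝ) →L[ℝ] inj (X h0) (X h0)) (P : inj (X h0) (X h0) →L[ℝ] C(K, ℝ)),
    ∀ f, P (J f) = f := main' h0 hc (ev h0) (ex h0) (ev1 h0) (ev2 h0) (ev3 h0) fun x =>
  cont (fun s => lp.evalCLM ℝ (fun _ : M n => ℝ) ⊤ ⟨_, anM s⟩)
    (fun s w => lp.norm_apply_le_norm (by simp) w _) (by
      rintro _ ⟨t, rfl⟩
      exact (ind hc t).continuous) x.2

end Pool.Agent.H.MP_ba88e9_an
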