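import Pool.Agent.H.MP_ba88e9_an.C

set_option autoImplicit false

namespace Pool.Agent.H.MP_ba88e9_an

open Filter Topology Set Classical Ordinal

lemma fin {ι : Type*} (p : ℕ → ι) (hp : Function.Injective p) (u : ℕ → ι → ℝ)
    (h : ∀ i s, u i s = if s = p i then 1 else 0) (F : Finset ℕ) (ε : ℕ → ℝ) (k : ∀ i, |ε i| ≤ 1)
    (s : ι) : |∑ i ∈ F, ε i * u i s| ≤ 1 := by
  by_cases a : ∃ i ∈ F, s = p i
  · obtain ⟨i, a, rfl⟩ := a
    rw [Finset.sum_eq_single_of_mem i a fun j _ b => by simp [h, hp.eq_iff, b.symm]]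
    simpa [h] using k i
  · push Not at a
    rw [Finset.sum_eq_zero fun j b => by simp [h, a j b]]
    simp

theorem final (β : Ordinal.{0}) (h1 : ω ≤ β) (h2 : β.card ≤ Cardinal.aleph0) :
    ∃ (X : Type 1) (_ : NormedAddCommGroup X) (_ : NormedSpace ℝ X) (_ : CompleteSpace X),
    (∃ (J : C(Icc 0 β, ℝ) →L[ℝ] inj X X) (P : inj X X →L[ℝ] C(Icc 0 β, ℝ)), ∀ f, P (J f) = f) ∧
    (¬ ∃ (T : C(Icc 0 β, ℝ) →L[ℝ] X) (c : ℝ), 0 < c ∧ ∀ x, c * ‖x‖ ≤ ‖T x‖) ∧
    ¬ ∃ (T : ZeroAtInftyContinuousMap ℕ ℝ →L[ℝ] X) (c : ℝ), 0 < c ∧ ∀ x, c * ‖x‖ ≤ ‖T x‖ := by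
  have : Fact ((0 : Ordinal) ≤ β) := ⟨zero_le⟩
  have : Countable (Icc 0 β) := by
    rw [show Icc 0 β = Iio (β + 1) by ext; simp, ← Cardinal.mk_le_aleph0_iff,
      Cardinal.mk_Iio_ordinal, Cardinal.lift_le_aleph0, card_add, card_one]
    exact Cardinal.add_le_aleph0.2 ⟨h2, Cardinal.one_le_aleph0⟩
  obtain ⟨m, hm⟩ := exists_injective_nat (Icc 0 β)
  let n : Icc 0 β ↪ ℕ := ⟨fun s => if s = ⊤ then 0 else m s + 1, fun s t h => by
    by_cases a : s = ⊤ <;> by_cases b : t = ⊤ <;> simp_all [hm.eq_iff]⟩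
  have h0 : ∀ s, D n ⊤ s := fun s => ⟨le_top, fun u h => by simp [n] at h⟩
  have c : ∀ t : Icc 0 β, IsClopen {s | s ≤ t} := fun t => ⟨isClosed_Iic, by
    convert (isOpen_Iio (a := t.1 + 1)).preimage (continuous_subtype_val (p := (· ∈ Icc 0 β)))
    ext
    simp⟩
  refine ⟨X h0, inferInstance, inferInstance, inferInstance, main h0 fun t => ?_, ?_, ?_⟩
  · convert (c t).inter ((((finite_Iio (n t)).preimage n.injective.injOn).inter_of_left
      (Iio t)).isClopen_biInter fun u _ => (c u).compl)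
    ext
    simp [D]
  · set p : ℕ → Icc 0 β := fun i => ⟨i, zero_le, (natCast_lt_omega0 i).le.trans h1⟩
    have hp : ∀ i, IsClopen {p i} := fun i => ⟨isClosed_singleton, by
      convert (SuccOrder.isOpen_singleton_iff.2
        fun h => (natCast_lt_omega0 i).not_ge (omega0_le_of_isSuccLimit h)).preimage
        (continuous_subtype_val (p := (· ∈ Icc 0 β)))
      ext
      simp [p, Subtype.ext_iff]⟩
    set u : ℕ → C(Icc 0 β, ℝ) := fun i => ⟨_, (hp i).continuous_indicator (f := fun _ => (1 : ℝ))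
      continuous_const⟩
    refine noemb h0 u (fun i => by simpa [u] using (u i).norm_coe_le_norm (p i)) fun F ε k =>
      (ContinuousMap.norm_le _ zero_le_one).2 fun s => ?_
    simpa using fin p (fun i j h => by simpa [p] using h) (fun i => u i)
      (fun i s => by simp [u, Pi.single_apply]) F ε k s
  · set u : ℕ → ZeroAtInftyContinuousMap ℕ ℝ := fun i => ⟨⟨fun s => if s = i then 1 else 0,
      continuous_of_discreteTopology⟩, tendsto_const_nhds.congr' (by
        rw [cocompact_eq_cofinite]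
        filter_upwards [eventually_cofinite_ne i] with s hs
        simp [hs])⟩
    refine noemb h0 u (fun i => by simpa [u] using (u i).toBCF.norm_coe_le_norm i) fun F ε k =>
      (BoundedContinuousFunction.norm_le (f := ZeroAtInftyContinuousMap.toBCF _) zero_le_one).2
        fun s => ?_
    have : ∀ F : Finset ℕ, (∑ i ∈ F, ε i • u i) s = ∑ i ∈ F, ε i * u i s := fun F => by
      induction F using Finset.induction_on with
      | empty => rfl
      | insert i F h ih => simp [Finset.sum_insert h, ih]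
    exact (this F ▸ fin id Function.injective_id (fun i => u i) (fun _ _ => by simp [u]) F ε k s :)

end Pool.Agent.H.MP_ba88e9_an
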