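import Pool.Agent.H.MP_ba88e9_an.D

set_option autoImplicit false

namespace Pool.Agent.H.MP_ba88e9_an

open Set

universe u

variable {X : Type u} [NormedAddCommGroup X] [NormedSpace ℝ X]

lemma dcl {W : Type*} [NormedAddCommGroup W] [NormedSpace ℝ W] (S : Set W) (T : Set (cl S))
    (h : S ⊆ Subtype.val '' T) : Dense (Submodule.span ℝ T : Set (cl S)) := fun w => by
  rw [Topology.IsInducing.subtypeVal.closure_eq_preimage_closure_image]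
  refine closure_mono ?_ w.2
  have := Submodule.map_span (cl S).subtype T
  exact (Submodule.span_mono h).trans this.ge

lemma lub (B : StrongDual ℝ X →L[ℝ] X) :
    IsLUB {r | ∃ φ ψ : StrongDual ℝ X, ‖φ‖ ≤ 1 ∧ ‖ψ‖ ≤ 1 ∧ r = |ψ (B φ)|} ‖B‖ := by
  refine ⟨fun r ⟨φ, ψ, a, b, e⟩ => e ▸ (ψ.le_opNorm _).trans
    ((mul_le_of_le_one_left (norm_nonneg _) b).trans (B.unit_le_opNorm φ a)), fun c hc => ?_⟩
  refine B.opNorm_le_of_unit_norm (hc ⟨0, 0, by simp, by simp, by simp⟩) fun φ a => ?_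
  obtain ⟨ψ, b, e⟩ := exists_dual_vector'' ℝ (B φ)
  exact hc ⟨φ, ψ, a.le, b, by simp [e]⟩

lemma pack' {W : Type u} {E : Type*} [NormedAddCommGroup W] [NormedSpace ℝ W]
    [NormedAddCommGroup E] [NormedSpace ℝ E] (hW : CompleteSpace W) (S : Set W) (b : X → X → W)
    (hS : ∀ z, z ∈ S ↔ ∃ x y, z = b x y) (h1 : ∀ x, IsLinearMap ℝ (b x))
    (h2 : ∀ y, IsLinearMap ℝ fun x => b x y) (V : ∀ n, (Fin n → X) → (Fin n → X) → Set ℝ)
    (h3 : ∀ n x y, IsLUB (V n x y) ‖∑ i, b (x i) (y i)‖)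
    (h : ∃ (J : E →L[ℝ] cl S) (P : cl S →L[ℝ] E), ∀ f, P (J f) = f) :
    ∃ (Z : Type u) (_ : NormedAddCommGroup Z) (_ : NormedSpace ℝ Z) (b : X → X → Z),
      (CompleteSpace Z ∧ (∀ x, IsLinearMap ℝ (b x)) ∧ (∀ y, IsLinearMap ℝ fun x => b x y) ∧
      Dense (Submodule.span ℝ {z | ∃ x y, z = b x y} : Set Z) ∧ ∀ (n : ℕ) (x y : Fin n → X),
      IsLUB (V n x y) ‖∑ i, b (x i) (y i)‖) ∧
      ∃ (J : E →L[ℝ] Z) (P : Z →L[ℝ] E), ∀ f, P (J f) = f :=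
  ⟨cl S, _, _, fun x y => ⟨b x y, mcl ((hS _).2 ⟨x, y, rfl⟩)⟩, ⟨inferInstance,
    fun x => ⟨fun _ _ => Subtype.ext ((h1 x).1 _ _), fun _ _ => Subtype.ext ((h1 x).2 _ _)⟩,
    fun x => ⟨fun _ _ => Subtype.ext ((h2 x).1 _ _), fun _ _ => Subtype.ext ((h2 x).2 _ _)⟩,
    dcl _ _ fun z hz => let ⟨x, y, e⟩ := (hS z).1 hz; ⟨_, ⟨x, y, rfl⟩, e.symm⟩,
    fun n x y => by rw [Submodule.coe_norm, Submodule.coe_sum]; exact h3 n x y⟩, h⟩

noncomputable def bt (x y : X) : StrongDual ℝ X →L[ℝ] X :=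
  (NormedSpace.inclusionInDoubleDual ℝ X x).smulRight y

lemma bt_app (x y : X) (φ : StrongDual ℝ X) : bt x y φ = φ x • y := rfl

lemma bt_l (x : X) : IsLinearMap ℝ (bt x) :=
  ⟨fun _ _ => ContinuousLinearMap.ext fun φ => smul_add (φ x) _ _,
    fun c y => ContinuousLinearMap.ext fun φ => smul_comm (φ x) c y⟩

lemma bt_r (y : X) : IsLinearMap ℝ (bt · y) :=
  ⟨fun a b => ContinuousLinearMap.ext fun φ => by
      change φ (a + b) • y = φ a • y + φ b • y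
      rw [map_add, add_smul],
    fun c a => ContinuousLinearMap.ext fun φ => by
      change φ (c • a) • y = c • φ a • y
      rw [map_smul, smul_eq_mul, mul_smul]⟩

lemma bt_n (n : ℕ) (x y : Fin n → X) :
    IsLUB {r | ∃ φ ψ : StrongDual ℝ X, ‖φ‖ ≤ 1 ∧ ‖ψ‖ ≤ 1 ∧ r = |∑ i, φ (x i) * ψ (y i)|}
      ‖∑ i, bt (x i) (y i)‖ := by
  convert lub (∑ i, bt (x i) (y i)) using 8 with r φ ψ
  rw [_root_.sum_apply, map_sum]
  simp [bt_app]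

lemma pack {E : Type*} [NormedAddCommGroup E] [NormedSpace ℝ E] [CompleteSpace X]
    (h : ∃ (J : E →L[ℝ] inj X X) (P : inj X X →L[ℝ] E), ∀ f, P (J f) = f) :
    ∃ (Z : Type u) (_ : NormedAddCommGroup Z) (_ : NormedSpace ℝ Z) (b : X → X → Z),
      (CompleteSpace Z ∧ (∀ x, IsLinearMap ℝ (b x)) ∧ (∀ y, IsLinearMap ℝ fun x => b x y) ∧
      Dense (Submodule.span ℝ {z | ∃ x y, z = b x y} : Set Z) ∧ ∀ (n : ℕ) (x y : Fin n → X),
      IsLUB {r | ∃ φ ψ : StrongDual ℝ X, ‖φ‖ ≤ 1 ∧ ‖ψ‖ ≤ 1 ∧ r = |∑ i, φ (x i) * ψ (y i)|}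
        ‖∑ i, b (x i) (y i)‖) ∧ ∃ (J : E →L[ℝ] Z) (P : Z →L[ℝ] E), ∀ f, P (J f) = f :=
  pack' (W := StrongDual ℝ X →L[ℝ] X) (ContinuousLinearMap.instCompleteSpace ..) _ bt
    (fun _ => exists₂_congr fun _ _ => ContinuousLinearMap.ext_iff.symm) bt_l bt_r _ bt_n h

end Pool.Agent.H.MP_ba88e9_an
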